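import Pool.Agent.NH95.LF.Diri

set_option autoImplicit false

/-!
Almost every vertical line carries many good approximations with a large second coefficient.
-/

namespace Pool.Agent.NH95.LF

open MeasureTheory Filter Topology Set
open scoped ENNReal NNReal

/-- numbers with a very good homogeneous approximation at level `j` -/
def badX (j : ℕ) : Set ℝ := ⋃ q ∈ Finset.Icc (1 : ℤ) (2 ^ j), near q 0 (1 / (2 ^ j) ^ 2)

/-- numbers with an approximation with small second coefficient at level `j` -/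
def badY (x : ℝ) (j : ℕ) : Set ℝ :=
  ⋃ p ∈ Finset.Icc (-(2 ^ j) : ℤ) (2 ^ j), ⋃ q ∈ (Finset.Icc (1 : ℤ) (2 ^ j)).filter
    (fun q => q * (j : ℤ) ^ 2 ≤ 2 ^ j), near q (p * x) (1 / (2 ^ j) ^ 2)

theorem eps_le (j : ℕ) : (1 : ℝ) / (2 ^ j) ^ 2 ≤ 1 := by
  rw [div_le_one (by positivity)]
  exact one_le_pow₀ (one_le_pow₀ (by norm_num))

theorem volume_badX (j : ℕ) : volume (badX j) ≤ ENNReal.ofReal (10 * (1 / 2) ^ j) := by
  unfold badX
  refine (measure_biUnion_finset_le _ _).trans ?_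
  refine (Finset.sum_le_sum (g := fun _ => ENNReal.ofReal (10 * (1 / (2 ^ j) ^ 2)))
    fun q hq => volume_near (Finset.mem_Icc.1 hq).1 _ (by positivity) (eps_le j)).trans ?_
  rw [Finset.sum_const, Int.card_Icc, nsmul_eq_mul, ← ENNReal.ofReal_natCast,
    ← ENNReal.ofReal_mul (by positivity)]
  apply ENNReal.ofReal_le_ofReal
  have h3 : (((2 ^ j + 1 - 1 : ℤ).toNat : ℕ) : ℝ) = 2 ^ j := by
    have h4 : (((2 : ℤ) ^ j + 1 - 1).toNat : ℤ) = 2 ^ j := by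
      have : (0 : ℤ) < 2 ^ j := by positivity
      omega
    exact_mod_cast h4
  rw [h3, one_div_pow]
  apply le_of_eq
  field_simp

theorem card_filter_le (j : ℕ) (hj : 1 ≤ j) : (((Finset.Icc (1 : ℤ) (2 ^ j)).filter
    (fun q => q * (j : ℤ) ^ 2 ≤ 2 ^ j)).card : ℝ) ≤ 2 ^ j / (j : ℝ) ^ 2 := by
  have hjj : (0 : ℤ) < (j : ℤ) ^ 2 := by positivity
  have h1 : (Finset.Icc (1 : ℤ) (2 ^ j)).filter (fun q => q * (j : ℤ) ^ 2 ≤ 2 ^ j) ⊆
      Finset.Icc 1 (2 ^ j / (j : ℤ) ^ 2) := by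
    intro q hq
    rw [Finset.mem_filter, Finset.mem_Icc] at hq
    rw [Finset.mem_Icc]
    exact ⟨hq.1.1, (Int.le_ediv_iff_mul_le hjj).2 hq.2⟩
  have h2 := Finset.card_le_card h1
  rw [Int.card_Icc] at h2
  have h0 : (0 : ℤ) ≤ 2 ^ j / (j : ℤ) ^ 2 := Int.ediv_nonneg (by positivity) hjj.le
  have h3 : (((2 ^ j / (j : ℤ) ^ 2 + 1 - 1).toNat : ℕ) : ℤ) = 2 ^ j / (j : ℤ) ^ 2 := by omega
  have h4 : (((Finset.Icc (1 : ℤ) (2 ^ j)).filter
    (fun q => q * (j : ℤ) ^ 2 ≤ 2 ^ j)).card : ℤ) ≤ 2 ^ j / (j : ℤ) ^ 2 := by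
    rw [← h3]; exact_mod_cast h2
  have h5 : ((((Finset.Icc (1 : ℤ) (2 ^ j)).filter
    (fun q => q * (j : ℤ) ^ 2 ≤ 2 ^ j)).card : ℤ) : ℝ) ≤ ((2 ^ j / (j : ℤ) ^ 2 : ℤ) : ℝ) := by
    exact_mod_cast h4
  have h6 : ((2 ^ j / (j : ℤ) ^ 2 : ℤ) : ℝ) ≤ 2 ^ j / (j : ℝ) ^ 2 := by
    rw [le_div_iff₀ (by positivity)]
    have := Int.ediv_mul_le (2 ^ j : ℤ) hjj.ne'
    exact_mod_cast this
  rw [Int.cast_natCast] at h5
  exact h5.trans h6

theorem volume_badY (x : ℝ) (j : ℕ) (hj : 1 ≤ j) :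
    volume (badY x j) ≤ ENNReal.ofReal (30 * (1 / (j : ℝ) ^ 2)) := by
  unfold badY
  refine (measure_biUnion_finset_le _ _).trans ?_
  have h1 : ∀ p ∈ Finset.Icc (-(2 ^ j) : ℤ) (2 ^ j), volume (⋃ q ∈ (Finset.Icc (1 : ℤ) (2 ^ j)).filter
      (fun q => q * (j : ℤ) ^ 2 ≤ 2 ^ j), near q (p * x) (1 / (2 ^ j) ^ 2)) ≤
      ENNReal.ofReal (2 ^ j / (j : ℝ) ^ 2 * (10 * (1 / (2 ^ j) ^ 2))) := by
    intro p _
    refine (measure_biUnion_finset_le _ _).trans ?_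
    refine (Finset.sum_le_sum (g := fun _ => ENNReal.ofReal (10 * (1 / (2 ^ j) ^ 2)))
      fun q hq => volume_near (Finset.mem_Icc.1 (Finset.mem_filter.1 hq).1).1 _ (by positivity)
        (eps_le j)).trans ?_
    rw [Finset.sum_const, nsmul_eq_mul, ← ENNReal.ofReal_natCast,
      ← ENNReal.ofReal_mul (by positivity)]
    apply ENNReal.ofReal_le_ofReal
    exact mul_le_mul_of_nonneg_right (card_filter_le j hj) (by positivity)
  refine (Finset.sum_le_sum h1).trans ?_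
  rw [Finset.sum_const, Int.card_Icc, nsmul_eq_mul, ← ENNReal.ofReal_natCast,
    ← ENNReal.ofReal_mul (by positivity)]
  apply ENNReal.ofReal_le_ofReal
  have h3 : (((2 ^ j + 1 - (-(2 ^ j)) : ℤ).toNat : ℕ) : ℝ) ≤ 3 * 2 ^ j := by
    have h4 : (((2 : ℤ) ^ j + 1 - (-(2 ^ j))).toNat : ℤ) ≤ 3 * 2 ^ j := by
      have : (0 : ℤ) < 2 ^ j := by positivity
      omega
    exact_mod_cast h4
  have hj0 : (0 : ℝ) < j := by exact_mod_cast hj
  calc (((2 ^ j + 1 - (-(2 ^ j)) : ℤ).toNat : ℕ) : ℝ) * (2 ^ j / (j : ℝ) ^ 2 * (10 * (1 / (2 ^ j) ^ 2)))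
      ≤ 3 * 2 ^ j * (2 ^ j / (j : ℝ) ^ 2 * (10 * (1 / (2 ^ j) ^ 2))) :=
        mul_le_mul_of_nonneg_right h3 (by positivity)
    _ = 30 * (1 / (j : ℝ) ^ 2) := by
        field_simp
        ring

theorem summable_one : ∑' j : ℕ, volume (badX j) ≠ ⊤ := by
  have h : Summable (fun j : ℕ => (10 : ℝ) * (1 / 2) ^ j) := summable_geometric_two.mul_left _
  refine ne_top_of_le_ne_top h.tsum_ofReal_ne_top (ENNReal.tsum_le_tsum fun j => volume_badX j)

theorem summable_two (x : ℝ) : ∑' j : ℕ, volume (badY x (j + 1)) ≠ ⊤ := by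
  have h : Summable (fun j : ℕ => (30 : ℝ) * (1 / ((j + 1 : ℕ) : ℝ) ^ 2)) := by
    apply Summable.mul_left
    exact (summable_nat_add_iff (f := fun n : ℕ => 1 / (n : ℝ) ^ 2) 1).2
      (Real.summable_one_div_nat_pow.2 (by norm_num))
  refine ne_top_of_le_ne_top h.tsum_ofReal_ne_top (ENNReal.tsum_le_tsum fun j => ?_)
  exact volume_badY x (j + 1) (by omega)

/-- at almost all points all approximations of level `j` have a nonzero first coefficient and a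
large second one -/
theorem ae_good : ∀ᵐ x ∂(volume : Measure ℝ), x ∈ Ioo (0:ℝ) 1 → ∀ᵐ y ∂(volume : Measure ℝ),
    y ∈ Ioo (0:ℝ) 1 → ∀ᶠ j : ℕ in atTop, ∃ p q r : ℤ, p ≠ 0 ∧ 1 ≤ q ∧ |p| ≤ 2 ^ j ∧ q ≤ 2 ^ j ∧
      2 ^ j < q * (j : ℤ) ^ 2 ∧ |(p : ℝ) * x + q * y + r| ≤ 1 / (2 ^ j) ^ 2 := by
  have h1 := ae_eventually_notMem summable_one
  filter_upwards [h1] with x hx hx01
  have h2 := ae_eventually_notMem (summable_two x)
  filter_upwards [h1, h2] with y hy1 hy2 hy01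
  have hy3 : ∀ᶠ j : ℕ in atTop, y ∉ badY x j := by
    rw [eventually_atTop] at hy2 ⊢
    obtain ⟨n, hn⟩ := hy2
    refine ⟨n + 1, fun j hj => ?_⟩
    have := hn (j - 1) (by omega)
    rwa [show j - 1 + 1 = j by omega] at this
  filter_upwards [hx, hy1, hy3] with j h3 h4 h5
  obtain ⟨p, q, r, hpq, hp, hq, hr⟩ := dirichlet x y (2 ^ j) Nat.one_le_two_pow
  push_cast at hp hq hr
  -- the homogeneous solutions
  have hq0 : q ≠ 0 := by
    rintro rfl
    have hp0 : p ≠ 0 := by simpa using hpq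
    apply h3
    unfold badX
    rw [mem_iUnion₂]
    refine ⟨|p|, ?_, hx01, ?_⟩
    · rw [Finset.mem_Icc]
      exact ⟨Int.one_le_abs hp0, hp⟩
    · rcases abs_choice p with h | h
      · refine ⟨r, ?_⟩
        rw [h]
        simpa using hr
      · refine ⟨-r, ?_⟩
        rw [h, ← abs_neg]
        push_cast
        have e : -(-(p : ℝ) * x + 0 + -(r : ℝ)) = p * x + (0 : ℤ) * y + r := by push_cast; ring
        rw [e]
        exact hr
  have hp0 : p ≠ 0 := by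
    rintro rfl
    apply h4
    unfold badX
    rw [mem_iUnion₂]
    refine ⟨|q|, ?_, hy01, ?_⟩
    · rw [Finset.mem_Icc]
      exact ⟨Int.one_le_abs hq0, hq⟩
    · rcases abs_choice q with h | h
      · refine ⟨r, ?_⟩
        rw [h]
        simpa using hr
      · refine ⟨-r, ?_⟩
        rw [h, ← abs_neg]
        push_cast
        have e : -(-(q : ℝ) * y + 0 + -(r : ℝ)) = (0 : ℤ) * x + q * y + r := by push_cast; ring
        rw [e]
        exact hr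
  -- normalise the sign of `q`
  have hmain : ∀ p q r : ℤ, p ≠ 0 → 1 ≤ q → |p| ≤ 2 ^ j → q ≤ 2 ^ j →
      |(p : ℝ) * x + q * y + r| ≤ 1 / (2 ^ j) ^ 2 →
      ∃ p q r : ℤ, p ≠ 0 ∧ 1 ≤ q ∧ |p| ≤ 2 ^ j ∧ q ≤ 2 ^ j ∧
      2 ^ j < q * (j : ℤ) ^ 2 ∧ |(p : ℝ) * x + q * y + r| ≤ 1 / (2 ^ j) ^ 2 := by
    intro p q r a1 a2 a3 a4 a5
    refine ⟨p, q, r, a1, a2, a3, a4, ?_, a5⟩
    by_contra hcon
    push Not at hcon
    apply h5
    unfold badY
    rw [mem_iUnion₂]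
    refine ⟨p, ?_, ?_⟩
    · rw [Finset.mem_Icc]
      exact abs_le.1 a3
    · rw [mem_iUnion₂]
      refine ⟨q, ?_, hy01, r, ?_⟩
      · rw [Finset.mem_filter, Finset.mem_Icc]
        exact ⟨⟨a2, a4⟩, hcon⟩
      · have e : (q : ℝ) * y + p * x + r = p * x + q * y + r := by ring
        rw [e]
        exact a5
  rcases lt_or_gt_of_ne hq0 with h | h
  · refine hmain (-p) (-q) (-r) (neg_ne_zero.2 hp0) (by omega) (by rwa [abs_neg])
      (le_trans (neg_le_abs q) hq) ?_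
    rw [← abs_neg]
    push_cast
    have e : -(-(p : ℝ) * x + -(q : ℝ) * y + -(r : ℝ)) = p * x + q * y + r := by ring
    rw [e]
    exact hr
  · exact hmain p q r hp0 (by omega) hp (le_trans (le_abs_self q) hq) hr

end Pool.Agent.NH95.LF
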