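import Mathlib

set_option autoImplicit false

/-!
Dirichlet's theorem for a linear form in two variables, and a measure bound.
-/

namespace Pool.Agent.NH95.LF

open MeasureTheory Filter Topology Set
open scoped ENNReal NNReal

/-- Dirichlet's theorem for a linear form in two variables -/
theorem dirichlet (x y : ℝ) (Q : ℕ) (hQ : 1 ≤ Q) : ∃ p q r : ℤ, (p ≠ 0 ∨ q ≠ 0) ∧ |p| ≤ Q ∧ |q| ≤ Q ∧
    |(p : ℝ) * x + q * y + r| ≤ 1 / (Q : ℝ) ^ 2 := by
  classical
  set N : ℕ := Q ^ 2 + 2 * Q with hN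
  have hN0 : 0 < N := by positivity
  have hNR : (0 : ℝ) < N := by exact_mod_cast hN0
  let f : ℕ × ℕ → ℕ := fun a => ⌊Int.fract ((a.1 : ℝ) * x + a.2 * y) * N⌋₊
  have hmaps : ∀ a ∈ Finset.range (Q + 1) ×ˢ Finset.range (Q + 1), f a ∈ Finset.range N := by
    intro a _
    rw [Finset.mem_range]
    simp only [f]
    rw [Nat.floor_lt (by have := Int.fract_nonneg ((a.1 : ℝ) * x + a.2 * y); positivity)]
    have := Int.fract_lt_one ((a.1 : ℝ) * x + a.2 * y)
    nlinarith
  obtain ⟨a, ha, b, hb, hab, hf⟩ := Finset.exists_ne_map_eq_of_card_lt_of_maps_to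
    (by
      rw [Finset.card_range, Finset.card_product, Finset.card_range, hN]
      nlinarith) hmaps
  rw [Finset.mem_product, Finset.mem_range, Finset.mem_range] at ha hb
  refine ⟨(a.1 : ℤ) - b.1, (a.2 : ℤ) - b.2,
    ⌊(b.1 : ℝ) * x + b.2 * y⌋ - ⌊(a.1 : ℝ) * x + a.2 * y⌋, ?_, ?_, ?_, ?_⟩
  · by_contra hcon
    push Not at hcon
    apply hab
    exact Prod.ext (by omega) (by omega)
  · rw [abs_le]; constructor <;> omega
  · rw [abs_le]; constructor <;> omega
  · have e : (((a.1 : ℤ) - b.1 : ℤ) : ℝ) * x + (((a.2 : ℤ) - b.2 : ℤ) : ℝ) * y +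
        ((⌊(b.1 : ℝ) * x + b.2 * y⌋ - ⌊(a.1 : ℝ) * x + a.2 * y⌋ : ℤ) : ℝ) =
        Int.fract ((a.1 : ℝ) * x + a.2 * y) - Int.fract ((b.1 : ℝ) * x + b.2 * y) := by
      rw [Int.fract, Int.fract]
      push_cast
      ring
    rw [e]
    have h1 := Int.fract_nonneg ((a.1 : ℝ) * x + a.2 * y)
    have h2 := Int.fract_nonneg ((b.1 : ℝ) * x + b.2 * y)
    set u := Int.fract ((a.1 : ℝ) * x + a.2 * y)
    set v := Int.fract ((b.1 : ℝ) * x + b.2 * y)
    simp only [f] at hf
    have h3 := Nat.floor_le (show 0 ≤ u * N by positivity)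
    have h4 := Nat.lt_floor_add_one (u * N)
    have h5 := Nat.floor_le (show 0 ≤ v * N by positivity)
    have h6 := Nat.lt_floor_add_one (v * N)
    have hf' : ((⌊u * N⌋₊ : ℕ) : ℝ) = ((⌊v * N⌋₊ : ℕ) : ℝ) := by exact_mod_cast hf
    rw [hf'] at h3 h4
    have h7 : |u - v| * N < 1 := by
      have h10 : |u - v| * N = |(u - v) * N| := by rw [abs_mul, abs_of_pos hNR]
      rw [h10, sub_mul, abs_lt]
      constructor <;> linarith
    have hQR : (0 : ℝ) < (Q : ℝ) ^ 2 := by positivity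
    rw [le_div_iff₀ hQR]
    have h8 : (Q : ℝ) ^ 2 ≤ N := by
      rw [hN]; push_cast; nlinarith [show (0 : ℝ) ≤ Q by positivity]
    have h9 := abs_nonneg (u - v)
    nlinarith

/-- the numbers in the unit interval with `q y + c` near an integer -/
def near (q : ℤ) (c ε : ℝ) : Set ℝ := {y | y ∈ Ioo (0:ℝ) 1 ∧ ∃ r : ℤ, |(q : ℝ) * y + c + r| ≤ ε}

theorem volume_near {q : ℤ} (hq : 1 ≤ q) (c : ℝ) {ε : ℝ} (h0 : 0 ≤ ε) (h1 : ε ≤ 1) :
    volume (near q c ε) ≤ ENNReal.ofReal (10 * ε) := by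
  have hqR : (1 : ℝ) ≤ q := by exact_mod_cast hq
  set m : ℤ := ⌊c⌋ with hm
  have hm1 : (m : ℝ) ≤ c := Int.floor_le c
  have hm2 : c < m + 1 := Int.lt_floor_add_one c
  have hsub : near q c ε ⊆ ⋃ r ∈ Finset.Icc (m - 1) (m + q + 2),
      Icc ((r - c - ε) / q) ((r - c + ε) / q) := by
    rintro y ⟨⟨hy0, hy1⟩, r, hr⟩
    rw [abs_le] at hr
    rw [mem_iUnion₂]
    refine ⟨-r, ?_, ?_⟩
    · rw [Finset.mem_Icc]
      constructor
      · have : ((m - 1 : ℤ) : ℝ) < ((-r + 1 : ℤ) : ℝ) := by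
          push_cast
          have : 0 < (q : ℝ) * y := by positivity
          linarith
        have h := Int.cast_lt.1 this
        omega
      · have : ((-r : ℤ) : ℝ) < ((m + q + 2 : ℤ) : ℝ) := by
          push_cast
          have : (q : ℝ) * y ≤ q := by nlinarith
          linarith
        have h := Int.cast_lt.1 this
        omega
    · rw [mem_Icc, div_le_iff₀ (by linarith), le_div_iff₀ (by linarith)]
      push_cast
      constructor <;> linarith
  refine (measure_mono hsub).trans ((measure_biUnion_finset_le _ _).trans ?_)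
  have h2 : ∀ r ∈ Finset.Icc (m - 1) (m + q + 2),
      volume (Icc (((r : ℤ) - c - ε) / q) ((r - c + ε) / q)) ≤ ENNReal.ofReal (2 * ε / q) := by
    intro r _
    rw [Real.volume_Icc]
    apply ENNReal.ofReal_le_ofReal
    rw [← sub_div]
    apply div_le_div_of_nonneg_right _ (by linarith)
    linarith
  refine (Finset.sum_le_sum h2).trans ?_
  rw [Finset.sum_const, Int.card_Icc, nsmul_eq_mul, ← ENNReal.ofReal_natCast,
    ← ENNReal.ofReal_mul (by positivity)]
  apply ENNReal.ofReal_le_ofReal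
  have h3 : (((m + q + 2 + 1 - (m - 1)).toNat : ℕ) : ℝ) = q + 4 := by
    have : ((m + q + 2 + 1 - (m - 1)).toNat : ℤ) = q + 4 := by omega
    exact_mod_cast this
  rw [h3, mul_div_assoc', div_le_iff₀ (by linarith)]
  nlinarith

end Pool.Agent.NH95.LF
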