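import Mathlib

set_option autoImplicit false

/-!
A slicing inequality for covers of planar sets.
-/

namespace Pool.Agent.NH95.LF

open MeasureTheory Filter Topology Set
open scoped ENNReal NNReal

/-- the vertical slice of a planar set -/
def sl (W : Set (ℝ × ℝ)) (x : ℝ) : Set ℝ := {y | (x, y) ∈ W}

theorem ediam_sl_le (W : Set (ℝ × ℝ)) (x : ℝ) : Metric.ediam (sl W x) ≤ Metric.ediam W := by
  refine Metric.ediam_le fun y hy z hz => ?_
  have h := Metric.edist_le_ediam_of_mem (show (x, y) ∈ W from hy) (show (x, z) ∈ W from hz)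
  refine le_trans ?_ h
  rw [Prod.edist_eq]
  exact le_max_right _ _

theorem ediam_fst_le (W : Set (ℝ × ℝ)) : Metric.ediam (Prod.fst '' W) ≤ Metric.ediam W := by
  have h := (LipschitzWith.prod_fst (α := ℝ) (β := ℝ)).ediam_image_le W
  simpa using h

theorem mul_rpow_self {a : ℝ≥0∞} {s : ℝ} (hs : 0 < s) : a ^ s * a = a ^ (1 + s) := by
  rcases eq_or_ne a 0 with h | h
  · rw [h, mul_zero, ENNReal.zero_rpow_of_pos (by linarith)]
  rcases eq_or_ne a ⊤ with h' | h'
  · rw [h', ENNReal.top_rpow_of_pos hs, ENNReal.top_rpow_of_pos (by linarith), ENNReal.top_mul_top]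
  · rw [add_comm, ENNReal.rpow_add _ _ h h', ENNReal.rpow_one]

theorem slice_content {s : ℝ} (hs : 0 < s) (W : Set (ℝ × ℝ)) (κ : ℝ≥0∞)
    (hW : ∀ᵐ x ∂(volume : Measure ℝ), x ∈ Ioo (0:ℝ) 1 → ∀ A : ℕ → Set ℝ, sl W x ⊆ ⋃ j, A j →
      κ ≤ ∑' j, Metric.ediam (A j) ^ s)
    (U : ℕ → Set (ℝ × ℝ)) (hU : W ⊆ ⋃ j, U j) : κ ≤ ∑' j, Metric.ediam (U j) ^ (1 + s) := by
  set I : ℕ → Set ℝ := fun j => toMeasurable volume (Prod.fst '' U j) with hI
  have hIm : ∀ j, MeasurableSet (I j) := fun j => measurableSet_toMeasurable _ _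
  have hIv : ∀ j, volume (I j) ≤ Metric.ediam (U j) := by
    intro j
    rw [hI]
    simp only
    rw [measure_toMeasurable]
    exact (Real.volume_le_diam _).trans (ediam_fst_le _)
  have h1 : ∀ᵐ x ∂(volume.restrict (Ioo (0:ℝ) 1)),
      κ ≤ ∑' j, (I j).indicator (fun _ => Metric.ediam (U j) ^ s) x := by
    rw [ae_restrict_iff' measurableSet_Ioo]
    filter_upwards [hW] with x hx hx01
    refine (hx hx01 (fun j => sl (U j) x) ?_).trans (ENNReal.tsum_le_tsum fun j => ?_)
    · intro y hy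
      have := hU (show (x, y) ∈ W from hy)
      rw [mem_iUnion] at this ⊢
      exact this
    · by_cases hxj : x ∈ Prod.fst '' U j
      · rw [indicator_of_mem (subset_toMeasurable _ _ hxj)]
        exact ENNReal.rpow_le_rpow (ediam_sl_le _ _) hs.le
      · have h2 : sl (U j) x = ∅ := by
          ext y
          simp only [sl, mem_ofPred_eq, mem_empty_iff_false, iff_false]
          intro h
          exact hxj ⟨(x, y), h, rfl⟩
        rw [h2, Metric.ediam_empty, ENNReal.zero_rpow_of_pos hs]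
        exact zero_le
  have h2 : κ ≤ ∫⁻ x in Ioo (0:ℝ) 1, ∑' j, (I j).indicator (fun _ => Metric.ediam (U j) ^ s) x := by
    calc κ = ∫⁻ _ in Ioo (0:ℝ) 1, κ := by
          rw [lintegral_const, Measure.restrict_apply_univ, Real.volume_Ioo]
          simp
      _ ≤ _ := lintegral_mono_ae h1
  refine h2.trans ?_
  rw [lintegral_tsum fun j => (measurable_const.indicator (hIm j)).aemeasurable]
  refine ENNReal.tsum_le_tsum fun j => ?_
  rw [lintegral_indicator (hIm j), lintegral_const, Measure.restrict_apply_univ, ← mul_rpow_self hs]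
  gcongr
  exact (Measure.restrict_apply_le _ _).trans (hIv j)

/-- lower bound for the dimension of a planar set from the content of its slices -/
theorem le_dimH_of_slices {t : ℝ} (ht : 0 < t) (W : Set (ℝ × ℝ)) {κ : ℝ≥0∞} (hκ : κ ≠ 0)
    (hW : ∀ s : ℝ, 0 < s → s < t → ∀ᵐ x ∂(volume : Measure ℝ), x ∈ Ioo (0:ℝ) 1 →
      ∀ A : ℕ → Set ℝ, sl W x ⊆ ⋃ j, A j → κ ≤ ∑' j, Metric.ediam (A j) ^ s) :
    ENNReal.ofReal (1 + t) ≤ dimH W := by
  have hcont : ∀ s : ℝ, 0 < s → s < t → Measure.hausdorffMeasure (1 + s) W ≠ 0 := by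
    intro s hs hst hzero
    have h4 : κ ≤ Measure.hausdorffMeasure (1 + s) W := by
      rw [Measure.hausdorffMeasure_apply]
      refine le_trans ?_ (le_iSup₂ (f := fun (r : ℝ≥0∞) (_ : 0 < r) =>
        ⨅ (t : ℕ → Set (ℝ × ℝ)) (_ : W ⊆ ⋃ n, t n) (_ : ∀ n, Metric.ediam (t n) ≤ r),
          ∑' n, ⨆ _ : (t n).Nonempty, Metric.ediam (t n) ^ (1 + s)) 1 one_pos)
      refine le_iInf fun A => le_iInf fun hA => le_iInf fun _ => ?_
      refine (slice_content hs W κ (hW s hs hst) A hA).trans (ENNReal.tsum_le_tsum fun n => ?_)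
      rcases (A n).eq_empty_or_nonempty with hn | hn
      · rw [hn, Metric.ediam_empty, ENNReal.zero_rpow_of_pos (by linarith)]
        exact zero_le
      · exact le_iSup (fun _ : (A n).Nonempty => Metric.ediam (A n) ^ (1 + s)) hn
    rw [hzero] at h4
    exact hκ (nonpos_iff_eq_zero.1 h4)
  refine le_of_forall_lt fun c hc => ?_
  obtain ⟨s', hs1, hs2, hs3⟩ := ENNReal.lt_iff_exists_real_btwn.1 hc
  have hst : s' < 1 + t := (ENNReal.ofReal_lt_ofReal_iff (by linarith)).1 hs3
  set s : ℝ := max (s' - 1) (t / 2) with hsdef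
  have hs0 : 0 < s := lt_max_of_lt_right (by linarith)
  have hs4 : s < t := max_lt (by linarith) (by linarith)
  have hs5 : s' ≤ 1 + s := by
    have := le_max_left (s' - 1) (t / 2)
    linarith
  have h6 := hcont s hs0 hs4
  have h7 : ((Real.toNNReal (1 + s) : ℝ≥0) : ℝ) = 1 + s := Real.coe_toNNReal _ (by linarith)
  have h8 := le_dimH_of_hausdorffMeasure_ne_zero (d := Real.toNNReal (1 + s)) (s := W)
    (by rw [h7]; exact h6)
  exact lt_of_lt_of_le hs2 ((ENNReal.ofReal_le_ofReal hs5).trans h8)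

end Pool.Agent.NH95.LF
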