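import Pool.Agent.NH95.LF.Ae
import Pool.Agent.NH95.LF.Slice
import Pool.Agent.R331.MT.Three

set_option autoImplicit false

/-!
The lower bound.
-/

namespace Pool.Agent.NH95.LF

open MeasureTheory Filter Topology Set
open scoped ENNReal NNReal

/-- approximations with nonzero coefficients, the second positive -/
def WW (w : ℝ) : Set (ℝ × ℝ) := {x | {t : ℤ × ℤ × ℤ | t.1 ≠ 0 ∧ 0 < t.2.1 ∧
  |(t.1 : ℝ) * x.1 + t.2.1 * x.2 + t.2.2| < ((max |t.1| t.2.1 : ℤ) : ℝ) ^ (-w)}.Infinite}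

/-- the centres of level `j` -/
def CC (x : ℝ) (j : ℕ) : Set ℝ := {c | ∃ p q r : ℤ, p ≠ 0 ∧ 1 ≤ q ∧ |p| ≤ 2 ^ j ∧ q ≤ 2 ^ j ∧
      2 ^ j < q * (j : ℤ) ^ 2 ∧ c = -((p : ℝ) * x + r) / q}

/-- the radii -/
noncomputable def rh (j : ℕ) : ℝ := ((j : ℝ) + 1) ^ 2 / (2 ^ j) ^ 3

theorem rh_pos (j : ℕ) : 0 < rh j := by unfold rh; positivity

theorem tendsto_aux (k : ℕ) {a : ℝ} (ha : 1 < a) : Tendsto (fun j : ℕ => ((j : ℝ) + 1) ^ k / a ^ j) atTop (𝓝 0) := by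
  have h := tendsto_pow_const_div_const_pow_of_one_lt k ha
  have h2 := (tendsto_add_atTop_iff_nat 1).2 h
  have h3 := h2.const_mul a
  rw [mul_zero] at h3
  refine h3.congr fun j => ?_
  push_cast
  rw [pow_succ a j]
  have : a ≠ 0 := by positivity
  field_simp

theorem rh_tendsto : Tendsto rh atTop (𝓝 0) := by
  have h := tendsto_aux 2 (show (1 : ℝ) < 8 by norm_num)
  refine h.congr fun j => ?_
  unfold rh
  rw [← pow_mul, mul_comm j 3, pow_mul]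
  norm_num

theorem near_CC {x y : ℝ} {j : ℕ} {p q r : ℤ} (h1 : p ≠ 0) (h2 : 1 ≤ q) (h3 : |p| ≤ 2 ^ j)
    (h4 : q ≤ 2 ^ j) (h5 : 2 ^ j < q * (j : ℤ) ^ 2)
    (h6 : |(p : ℝ) * x + q * y + r| ≤ 1 / (2 ^ j) ^ 2) : ∃ c ∈ CC x j, |y - c| < rh j := by
  have hq : (0 : ℝ) < q := by exact_mod_cast (by omega : 0 < q)
  refine ⟨-((p : ℝ) * x + r) / q, ⟨p, q, r, h1, h2, h3, h4, h5, rfl⟩, ?_⟩
  have e : y - -((p : ℝ) * x + r) / q = ((p : ℝ) * x + q * y + r) / q := by field_simp; ring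
  rw [e, abs_div, abs_of_pos hq, div_lt_iff₀ hq]
  refine h6.trans_lt ?_
  have h7 : (2 : ℝ) ^ j < q * (j : ℝ) ^ 2 := by exact_mod_cast h5
  unfold rh
  have h8 : (0 : ℝ) < 2 ^ j := by positivity
  rw [div_mul_eq_mul_div, div_lt_div_iff₀ (by positivity) (by positivity)]
  have h9 : (2 : ℝ) ^ j < (j + 1 : ℝ) ^ 2 * q := by
    refine h7.trans_le ?_
    rw [mul_comm]
    apply mul_le_mul_of_nonneg_right _ hq.le
    have : (0 : ℝ) ≤ j := Nat.cast_nonneg j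
    nlinarith
  calc 1 * ((2 : ℝ) ^ j) ^ 3 = 2 ^ j * (2 ^ j) ^ 2 := by ring
    _ < (j + 1 : ℝ) ^ 2 * q * (2 ^ j) ^ 2 := by
        apply mul_lt_mul_of_pos_right h9; positivity

/-- the size condition at large levels -/
theorem eventually_small {w t : ℝ} (ht : 0 < t) (htw : t * (w + 1) < 3) :
    ∀ᶠ j : ℕ in atTop, (2 : ℝ) ^ j * rh j ^ (1 / t) < (2 ^ j) ^ (-w) := by
  have ht3 : w + 1 < 3 / t := by rwa [lt_div_iff₀ ht, mul_comm]
  obtain ⟨m, hm⟩ := exists_nat_ge (2 / t)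
  set a : ℝ := 2 ^ (3 / t - (w + 1)) with ha
  have ha1 : 1 < a := Real.one_lt_rpow (by norm_num) (by linarith)
  have h := (tendsto_aux m ha1).eventually (gt_mem_nhds (show (0 : ℝ) < 1 by norm_num))
  filter_upwards [h] with j hj
  have h2 : (0 : ℝ) < 2 := by norm_num
  have hj1 : (1 : ℝ) ≤ (j : ℝ) + 1 := by
    have : (0 : ℝ) ≤ j := Nat.cast_nonneg j
    linarith
  have e1 : rh j ^ (1 / t) = ((j : ℝ) + 1) ^ (2 / t) / 2 ^ (3 * j / t) := by
    unfold rh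
    rw [Real.div_rpow (by positivity) (by positivity), ← Real.rpow_natCast, ← Real.rpow_mul (by positivity),
      ← Real.rpow_natCast 2 j, ← Real.rpow_natCast _ 3, ← Real.rpow_mul h2.le, ← Real.rpow_mul h2.le]
    congr 2
    · push_cast; ring
    · push_cast; ring
  have e2 : ((2 : ℝ) ^ j) ^ (-w) = 2 ^ (-w * j) := by
    rw [← Real.rpow_natCast, ← Real.rpow_mul h2.le]
    congr 1; ring
  have e3 : a ^ j = 2 ^ (3 * j / t - (w + 1) * j) := by
    rw [ha, ← Real.rpow_natCast, ← Real.rpow_mul h2.le]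
    congr 1; ring
  rw [div_lt_one (by positivity)] at hj
  have h5 : ((j : ℝ) + 1) ^ (2 / t) ≤ ((j : ℝ) + 1) ^ m := by
    rw [← Real.rpow_natCast]
    exact Real.rpow_le_rpow_of_exponent_le hj1 hm
  have h6 : ((j : ℝ) + 1) ^ (2 / t) < 2 ^ (3 * j / t - (w + 1) * j) := by
    rw [← e3]; exact h5.trans_lt hj
  rw [e1, e2, ← Real.rpow_natCast 2 j]
  have h7 : (0 : ℝ) < 2 ^ (3 * j / t) := Real.rpow_pos_of_pos h2 _
  rw [mul_div_assoc', div_lt_iff₀ h7, ← Real.rpow_add h2]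
  have h8 : (0 : ℝ) < 2 ^ (j : ℝ) := Real.rpow_pos_of_pos h2 _
  calc (2 : ℝ) ^ (j : ℝ) * ((j : ℝ) + 1) ^ (2 / t) < 2 ^ (j : ℝ) * 2 ^ (3 * j / t - (w + 1) * j) :=
        mul_lt_mul_of_pos_left h6 h8
    _ = 2 ^ (-w * j + 3 * j / t) := by
        rw [← Real.rpow_add h2]; congr 1; ring

/-- the lower bound for the set without sign condition -/
theorem le_dimH_WW {w : ℝ} (hw : 2 < w) : ENNReal.ofReal (1 + 3 / (w + 1)) ≤ dimH (WW w) := by
  have hw1 : 0 < w + 1 := by linarith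
  have ht0 : 0 < 3 / (w + 1) := by positivity
  refine le_dimH_of_slices ht0 (WW w) (κ := ENNReal.ofReal (1 / 20))
    (by rw [Ne, ENNReal.ofReal_eq_zero]; norm_num) ?_
  intro s hs hst
  obtain ⟨t, hst', htt⟩ := exists_between hst
  have ht : 0 < t := hs.trans hst'
  have ht1 : t ≤ 1 := by
    refine htt.le.trans ?_
    rw [div_le_one hw1]; linarith
  have htw : t * (w + 1) < 3 := by rwa [lt_div_iff₀ hw1] at htt
  filter_upwards [ae_good] with x hx hx01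
  intro A hA
  refine Pool.Agent.R331.MT.content hs hst' ht1 (CC x) rh rh_pos rh_tendsto ?_ A ?_
  · filter_upwards [hx hx01] with y hy hy01
    refine (hy hy01).frequently.mono ?_
    rintro j ⟨p, q, r, h1, h2, h3, h4, h5, h6⟩
    exact near_CC h1 h2 h3 h4 h5 h6
  · refine subset_trans ?_ hA
    rintro y ⟨-, hy⟩
    show (x, y) ∈ WW w
    unfold WW
    simp only [mem_ofPred_eq]
    intro hfin
    -- a bound for the second coefficients
    have h1 : ((fun t : ℤ × ℤ × ℤ => t.2.1) '' {t : ℤ × ℤ × ℤ | t.1 ≠ 0 ∧ 0 < t.2.1 ∧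
      |(t.1 : ℝ) * x + t.2.1 * y + t.2.2| < ((max |t.1| t.2.1 : ℤ) : ℝ) ^ (-w)}).Finite := hfin.image _
    obtain ⟨K, hK⟩ := h1.bddAbove
    have h2 : ∀ᶠ j : ℕ in atTop, ((K.toNat : ℝ) + 1) * ((j : ℝ) + 1) ^ 2 < 2 ^ j := by
      have h3 := (tendsto_aux 2 (show (1 : ℝ) < 2 by norm_num)).eventually
        (gt_mem_nhds (show (0 : ℝ) < 1 / ((K.toNat : ℝ) + 1) by positivity))
      filter_upwards [h3] with j hj
      rw [div_lt_div_iff₀ (by positivity) (by positivity)] at hj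
      linarith
    obtain ⟨j, ⟨c, ⟨p, q, r, b1, b2, b3, b4, b5, rfl⟩, hc⟩, hj1, hj2⟩ :=
      (hy.and_eventually (h2.and (eventually_small ht htw))).exists
    have hq : (0 : ℝ) < q := by exact_mod_cast (by omega : 0 < q)
    have hmem : (p, q, r) ∈ {t : ℤ × ℤ × ℤ | t.1 ≠ 0 ∧ 0 < t.2.1 ∧
      |(t.1 : ℝ) * x + t.2.1 * y + t.2.2| < ((max |t.1| t.2.1 : ℤ) : ℝ) ^ (-w)} := by
      refine ⟨b1, by show 0 < q; omega, ?_⟩
      show |(p : ℝ) * x + q * y + r| < ((max |p| q : ℤ) : ℝ) ^ (-w)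
      have e : (p : ℝ) * x + q * y + r = q * (y - -((p : ℝ) * x + r) / q) := by field_simp; ring
      rw [e, abs_mul, abs_of_pos hq]
      have hmax0 : (0 : ℝ) < ((max |p| q : ℤ) : ℝ) := by
        exact_mod_cast lt_max_of_lt_right (by omega : 0 < q)
      have hmax : ((max |p| q : ℤ) : ℝ) ≤ 2 ^ j := by
        exact_mod_cast max_le b3 b4
      have hqj : (q : ℝ) ≤ 2 ^ j := by exact_mod_cast b4
      calc (q : ℝ) * |y - -((p : ℝ) * x + r) / q| ≤ 2 ^ j * rh j ^ (1 / t) :=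
            mul_le_mul hqj hc.le (abs_nonneg _) (by positivity)
        _ < (2 ^ j) ^ (-w) := hj2
        _ ≤ ((max |p| q : ℤ) : ℝ) ^ (-w) :=
            Real.rpow_le_rpow_of_nonpos hmax0 hmax (by linarith)
    have h3 : q ≤ K := hK ⟨(p, q, r), hmem, rfl⟩
    have h4 : (q : ℝ) ≤ (K.toNat : ℝ) := by
      have : q ≤ (K.toNat : ℤ) := by omega
      exact_mod_cast this
    have h5 : (2 : ℝ) ^ j < q * (j : ℝ) ^ 2 := by exact_mod_cast b5
    have h6 : (0 : ℝ) ≤ j := Nat.cast_nonneg j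
    have h7 : (q : ℝ) * (j : ℝ) ^ 2 ≤ ((K.toNat : ℝ) + 1) * ((j : ℝ) + 1) ^ 2 :=
      mul_le_mul (by linarith) (by nlinarith) (by positivity) (by positivity)
    linarith

end Pool.Agent.NH95.LF
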