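import Pool.Agent.Y314.FD.DimUp

set_option autoImplicit false

/-!
The upper bound.
-/

namespace Pool.Agent.NH95.LF

open MeasureTheory Filter Topology Set
open scoped ENNReal NNReal

/-- bounded points with infinitely many approximations `0 < p ≤ q` -/
def EA (w : ℝ) (M : ℕ) : Set (ℝ × ℝ) := {x | |x.1| ≤ M ∧ |x.2| ≤ M ∧
  {t : ℤ × ℤ × ℤ | 0 < t.1 ∧ t.1 ≤ t.2.1 ∧
    |(t.1 : ℝ) * x.1 + t.2.1 * x.2 + t.2.2| < (t.2.1 : ℝ) ^ (-w)}.Infinite}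

/-- the third coefficient is bounded -/
theorem abs_r_le {w : ℝ} (hw : 0 < w) {M : ℕ} {x y : ℝ} (hx : |x| ≤ M) (hy : |y| ≤ M) {p q r : ℤ}
    (hp : 0 < p) (hpq : p ≤ q) (h : |(p : ℝ) * x + q * y + r| < (q : ℝ) ^ (-w)) :
    |r| ≤ (2 * M + 1) * q := by
  have hq : (1 : ℝ) ≤ q := by exact_mod_cast (by omega : 1 ≤ q)
  have hp0 : (0 : ℝ) < p := by exact_mod_cast hp
  have hpq' : (p : ℝ) ≤ q := by exact_mod_cast hpq
  have h1 : (q : ℝ) ^ (-w) ≤ 1 := Real.rpow_le_one_of_one_le_of_nonpos hq (by linarith)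
  have h2 : |(p : ℝ) * x| ≤ q * M := by
    rw [abs_mul, abs_of_pos hp0]
    exact mul_le_mul hpq' hx (abs_nonneg _) (by linarith)
  have h3 : |(q : ℝ) * y| ≤ q * M := by
    rw [abs_mul, abs_of_pos (by linarith)]
    exact mul_le_mul_of_nonneg_left hy (by linarith)
  have h4 : |(r : ℝ)| ≤ (2 * M + 1) * q := by
    rw [abs_le] at h2 h3 ⊢
    have h5 := abs_lt.1 h
    constructor <;> nlinarith
  exact_mod_cast h4

theorem large_q {w : ℝ} (hw : 0 < w) {M : ℕ} {x : ℝ × ℝ} (hx : x ∈ EA w M) (K : ℤ) :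
    ∃ p q r : ℤ, 0 < p ∧ p ≤ q ∧ |(p : ℝ) * x.1 + q * x.2 + r| < (q : ℝ) ^ (-w) ∧ K < q := by
  by_contra hcon
  push Not at hcon
  obtain ⟨h1, h2, h3⟩ := hx
  apply h3
  refine ((Finset.Icc (1 : ℤ) K) ×ˢ ((Finset.Icc (1 : ℤ) K) ×ˢ
    (Finset.Icc (-((2 * M + 1) * K)) ((2 * M + 1) * K)))).finite_toSet.subset ?_
  rintro ⟨p, q, r⟩ ⟨a1, a2, a3⟩
  simp only at a1 a2 a3
  have h4 := hcon p q r a1 a2 a3
  have h5 := abs_r_le hw h1 h2 a1 a2 a3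
  have h6 : |r| ≤ (2 * M + 1) * K := h5.trans (mul_le_mul_of_nonneg_left h4 (by positivity))
  rw [Finset.mem_coe, Finset.mem_product, Finset.mem_product, Finset.mem_Icc, Finset.mem_Icc,
    Finset.mem_Icc]
  refine ⟨⟨by show 1 ≤ p; omega, by show p ≤ K; omega⟩, ⟨by show 1 ≤ q; omega, h4⟩, abs_le.1 h6⟩

/-- a centre -/
noncomputable def pt (M v : ℕ) (a : ℤ × ℤ × ℤ × ℕ) : ℝ × ℝ :=
  (-M + a.2.2.2 / 2 ^ (v + 1), -((a.1 : ℝ) * (-M + a.2.2.2 / 2 ^ (v + 1)) + a.2.2.1) / a.2.1)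

/-- the centres at level `v` -/
noncomputable def FF (w : ℝ) (M v : ℕ) : Finset (ℝ × ℝ) :=
  ((Finset.Icc (1 : ℤ) ⌊(2 : ℝ) ^ (((v : ℝ) + 2) / (w + 1))⌋) ×ˢ
    ((Finset.Icc (1 : ℤ) ⌊(2 : ℝ) ^ (((v : ℝ) + 2) / (w + 1))⌋) ×ˢ
    ((Finset.Icc (-((2 * M + 1) * ⌊(2 : ℝ) ^ (((v : ℝ) + 2) / (w + 1))⌋))
      ((2 * M + 1) * ⌊(2 : ℝ) ^ (((v : ℝ) + 2) / (w + 1))⌋)) ×ˢ
    Finset.range (2 * M * 2 ^ (v + 1) + 1)))).image (pt M v)

theorem card_FF {w : ℝ} (hw : 0 < w) (M v : ℕ) : ((FF w M v).card : ℝ) ≤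
    (4 * M + 3) * (4 * M + 1) * ((2 : ℝ) ^ (((v : ℝ) + 2) / (w + 1))) ^ 3 * 2 ^ v := by
  set Y : ℝ := (2 : ℝ) ^ (((v : ℝ) + 2) / (w + 1)) with hY
  have hY1 : 1 ≤ Y := Real.one_le_rpow (by norm_num) (by positivity)
  set k : ℤ := ⌊Y⌋ with hk
  have hk1 : 1 ≤ k := by rw [hk]; exact Int.le_floor.2 (by exact_mod_cast hY1)
  have hkY : (k : ℝ) ≤ Y := Int.floor_le Y
  have h1 : (FF w M v).card ≤ k.toNat * (k.toNat * ((2 * ((2 * M + 1) * k) + 1).toNat *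
      (2 * M * 2 ^ (v + 1) + 1))) := by
    unfold FF
    refine Finset.card_image_le.trans ?_
    rw [Finset.card_product, Finset.card_product, Finset.card_product, Int.card_Icc, Int.card_Icc,
      Finset.card_range]
    have e1 : (k + 1 - 1).toNat = k.toNat := by congr 1; ring
    have e2 : ((2 * M + 1) * k + 1 - -((2 * M + 1) * k)).toNat =
      (2 * ((2 * M + 1) * k) + 1).toNat := by congr 1; ring
    rw [e1, e2]
  have h2 : ((k.toNat : ℕ) : ℝ) = k := by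
    have : ((k.toNat : ℕ) : ℤ) = k := Int.toNat_of_nonneg (by omega)
    exact_mod_cast this
  have h3 : (((2 * ((2 * (M : ℤ) + 1) * k) + 1).toNat : ℕ) : ℝ) = 2 * ((2 * M + 1) * k) + 1 := by
    have : (((2 * ((2 * (M : ℤ) + 1) * k) + 1).toNat : ℕ) : ℤ) = 2 * ((2 * M + 1) * k) + 1 :=
      Int.toNat_of_nonneg (by positivity)
    exact_mod_cast this
  have h4 : ((FF w M v).card : ℝ) ≤ k * (k * ((2 * ((2 * M + 1) * k) + 1) * (2 * M * 2 ^ (v + 1) + 1))) := by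
    have : ((FF w M v).card : ℝ) ≤ ((k.toNat * (k.toNat * ((2 * ((2 * (M : ℤ) + 1) * k) + 1).toNat *
      (2 * M * 2 ^ (v + 1) + 1))) : ℕ) : ℝ) := by exact_mod_cast h1
    rw [Nat.cast_mul, Nat.cast_mul, Nat.cast_mul, h2, h3] at this
    push_cast at this
    exact this
  refine h4.trans ?_
  have hM : (0 : ℝ) ≤ M := Nat.cast_nonneg M
  have hk0 : (0 : ℝ) ≤ k := by exact_mod_cast (by omega : 0 ≤ k)
  have h5 : (2 * ((2 * (M : ℝ) + 1) * k) + 1) ≤ (4 * M + 3) * Y := by nlinarith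
  have hv : (1 : ℝ) ≤ 2 ^ v := one_le_pow₀ (by norm_num)
  have h6 : (2 * (M : ℝ) * 2 ^ (v + 1) + 1) ≤ (4 * M + 1) * 2 ^ v := by
    rw [pow_succ]; nlinarith
  calc (k : ℝ) * (k * ((2 * ((2 * M + 1) * k) + 1) * (2 * M * 2 ^ (v + 1) + 1)))
      ≤ Y * (Y * (((4 * M + 3) * Y) * ((4 * M + 1) * 2 ^ v))) := by gcongr
    _ = _ := by ring

theorem mem_near_FF {w : ℝ} (hw : 0 < w) {M : ℕ} {x : ℝ × ℝ} (hx : x ∈ EA w M) (n : ℕ) :
    ∃ v : ℕ, n ≤ v ∧ ∃ y ∈ FF w M v, dist x y ≤ (1 / 2 : ℝ) ^ v := by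
  have hx' := hx
  obtain ⟨hx1, hx2, -⟩ := hx'
  obtain ⟨p, q, r, h1, h2, h3, h4⟩ := large_q hw hx (2 ^ (n + 1))
  have hw1 : 0 < w + 1 := by linarith
  have hq1 : (1 : ℝ) ≤ q := by exact_mod_cast (by omega : 1 ≤ q)
  have hq0 : (0 : ℝ) < q := by linarith
  have hp0 : (0 : ℝ) < p := by exact_mod_cast h1
  have hpq : (p : ℝ) ≤ q := by exact_mod_cast h2
  -- the level
  have hbig : (2 : ℝ) ^ (n + 1) ≤ (q : ℝ) ^ (w + 1) := by
    have h5 : (2 : ℝ) ^ (n + 1) ≤ q := by exact_mod_cast h4.le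
    refine h5.trans ?_
    calc (q : ℝ) = (q : ℝ) ^ (1 : ℝ) := (Real.rpow_one _).symm
      _ ≤ _ := Real.rpow_le_rpow_of_exponent_le hq1 (by linarith)
  obtain ⟨u, hu1, hu2⟩ := exists_nat_pow_near (x := (q : ℝ) ^ (w + 1)) (y := 2)
    (Real.one_le_rpow hq1 hw1.le) (by norm_num)
  have hun : n + 1 ≤ u := by
    by_contra hcon
    push Not at hcon
    have : (2 : ℝ) ^ (u + 1) ≤ 2 ^ (n + 1) := pow_le_pow_right₀ (by norm_num) (by omega)
    linarith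
  obtain ⟨v, rfl⟩ : ∃ v, u = v + 1 := ⟨u - 1, by omega⟩
  refine ⟨v, by omega, ?_⟩
  have h2v : (0 : ℝ) < 2 ^ (v + 1) := by positivity
  -- the bound for `q`
  have hqY : q ≤ ⌊(2 : ℝ) ^ (((v : ℝ) + 2) / (w + 1))⌋ := by
    apply Int.le_floor.2
    have h6 : (q : ℝ) ^ (w + 1) ≤ ((2 : ℝ) ^ (((v : ℝ) + 2) / (w + 1))) ^ (w + 1) := by
      rw [← Real.rpow_mul (by norm_num), div_mul_cancel₀ _ hw1.ne']
      refine hu2.le.trans (le_of_eq ?_)
      rw [← Real.rpow_natCast]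
      congr 1
      push_cast
      ring
    exact (Real.rpow_le_rpow_iff hq0.le (by positivity) hw1).1 h6
  have hr := abs_r_le hw hx1 hx2 h1 h2 h3
  have hr' : |r| ≤ (2 * M + 1) * ⌊(2 : ℝ) ^ (((v : ℝ) + 2) / (w + 1))⌋ :=
    hr.trans (mul_le_mul_of_nonneg_left hqY (by positivity))
  rw [abs_le] at hx1 hr'
  -- the index
  have hnn : 0 ≤ (x.1 + M) * 2 ^ (v + 1) := mul_nonneg (by linarith) h2v.le
  set i : ℕ := ⌊(x.1 + M) * 2 ^ (v + 1)⌋₊ with hi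
  have hi1 : (i : ℝ) ≤ (x.1 + M) * 2 ^ (v + 1) := Nat.floor_le hnn
  have hi2 : (x.1 + M) * 2 ^ (v + 1) < i + 1 := Nat.lt_floor_add_one _
  have hiM : i ≤ 2 * M * 2 ^ (v + 1) := by
    have : (i : ℝ) ≤ ((2 * M * 2 ^ (v + 1) : ℕ) : ℝ) := by
      push_cast
      nlinarith
    exact_mod_cast this
  refine ⟨pt M v (p, q, r, i), ?_, ?_⟩
  · unfold FF
    apply Finset.mem_image_of_mem
    simp only [Finset.mem_product, Finset.mem_Icc, Finset.mem_range]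
    exact ⟨⟨by omega, by omega⟩, ⟨by omega, hqY⟩, ⟨by simpa using hr'.1, hr'.2⟩, by omega⟩
  · set z : ℝ := -M + (i : ℝ) / 2 ^ (v + 1) with hz
    have hz1 : |x.1 - z| ≤ 1 / 2 ^ (v + 1) := by
      have e : x.1 - z = ((x.1 + M) * 2 ^ (v + 1) - i) / 2 ^ (v + 1) := by
        rw [hz]; field_simp; ring
      rw [e, abs_div, abs_of_pos h2v]
      apply div_le_div_of_nonneg_right _ h2v.le
      rw [abs_le]; constructor <;> linarith
    have hz2 : |x.2 - -((p : ℝ) * z + r) / q| ≤ 1 / 2 ^ (v + 1) + 1 / 2 ^ (v + 1) := by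
      have e : x.2 - -((p : ℝ) * z + r) / q =
          ((p : ℝ) * x.1 + q * x.2 + r) / q - (p / q) * (x.1 - z) := by
        field_simp; ring
      rw [e]
      refine (abs_sub _ _).trans (add_le_add ?_ ?_)
      · rw [abs_div, abs_of_pos hq0, div_le_div_iff₀ hq0 h2v, one_mul]
        have h8 : (q : ℝ) ^ (-w) * (q : ℝ) ^ (w + 1) = q := by
          rw [← Real.rpow_add hq0]
          have : -w + (w + 1) = 1 := by ring
          rw [this, Real.rpow_one]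
        have h9 : |(p : ℝ) * x.1 + q * x.2 + r| * 2 ^ (v + 1) ≤ (q : ℝ) ^ (-w) * (q : ℝ) ^ (w + 1) :=
          mul_le_mul h3.le hu1 h2v.le (by positivity)
        linarith
      · rw [abs_mul, abs_of_pos (by positivity : (0 : ℝ) < p / q)]
        have h8 : (p : ℝ) / q ≤ 1 := (div_le_one hq0).2 hpq
        calc (p : ℝ) / q * |x.1 - z| ≤ 1 * |x.1 - z| := mul_le_mul_of_nonneg_right h8 (abs_nonneg _)
          _ ≤ _ := by rw [one_mul]; exact hz1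
    have e3 : (1 / 2 : ℝ) ^ v = 1 / 2 ^ (v + 1) + 1 / 2 ^ (v + 1) := by
      rw [one_div_pow, pow_succ]; field_simp; norm_num
    rw [Prod.dist_eq, e3]
    apply max_le
    · show dist x.1 z ≤ _
      rw [Real.dist_eq]
      have : (0 : ℝ) ≤ 1 / 2 ^ (v + 1) := by positivity
      linarith
    · show dist x.2 (-((p : ℝ) * z + r) / q) ≤ _
      rw [Real.dist_eq]
      exact hz2

theorem dimH_EA_le {w : ℝ} (hw : 0 < w) (M : ℕ) {s : ℝ} (hs : 1 + 3 / (w + 1) < s) :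
    dimH (EA w M) ≤ ENNReal.ofReal s := by
  have hw1 : 0 < w + 1 := by linarith
  have h30 : 0 < 3 / (w + 1) := by positivity
  -- the growth
  set a : ℝ := 2 ^ (s - (1 + 3 / (w + 1))) with ha
  have ha1 : 1 < a := Real.one_lt_rpow (by norm_num) (by linarith)
  set C : ℝ := (4 * M + 3) * (4 * M + 1) * 2 ^ (6 / (w + 1)) with hC
  have hC0 : 0 < C := by positivity
  obtain ⟨v0, hv0⟩ := (tendsto_pow_atTop_atTop_of_one_lt ha1).eventually_ge_atTop C |>.exists_forall_of_atTop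
  refine Pool.Agent.Y314.FD.dimH_le_of_balls (EA w M) (FF w M) (b := 1 / 2) (s := s) (by norm_num)
    (by norm_num) (by linarith) (v0 := v0) ?_ ?_
  · intro v hv
    refine (card_FF hw M v).trans ?_
    have h1 := hv0 v hv
    have h2 : (0 : ℝ) < 2 := by norm_num
    have e1 : (1 / 2 : ℝ) ^ (-(s * v)) = 2 ^ (s * v) := by
      rw [one_div, Real.inv_rpow h2.le, Real.rpow_neg h2.le, inv_inv]
    have e2 : ((2 : ℝ) ^ (((v : ℝ) + 2) / (w + 1))) ^ 3 = 2 ^ (6 / (w + 1)) * 2 ^ (3 / (w + 1) * v) := by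
      rw [← Real.rpow_natCast, ← Real.rpow_mul h2.le, ← Real.rpow_add h2]
      congr 1
      push_cast
      ring
    have e3 : a ^ v * (2 ^ (3 / (w + 1) * v) * 2 ^ v) = 2 ^ (s * v) := by
      rw [ha, ← Real.rpow_natCast, ← Real.rpow_mul h2.le, ← Real.rpow_natCast 2 v, ← Real.rpow_add h2,
        ← Real.rpow_add h2]
      congr 1
      ring
    rw [e1, e2, ← e3]
    calc (4 * (M : ℝ) + 3) * (4 * M + 1) * (2 ^ (6 / (w + 1)) * 2 ^ (3 / (w + 1) * v)) * 2 ^ v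
        = C * (2 ^ (3 / (w + 1) * v) * 2 ^ v) := by rw [hC]; ring
      _ ≤ a ^ v * (2 ^ (3 / (w + 1) * v) * 2 ^ v) := mul_le_mul_of_nonneg_right h1 (by positivity)
  · intro x hx
    rw [frequently_atTop]
    intro n
    obtain ⟨v, h1, h2⟩ := mem_near_FF hw hx n
    exact ⟨v, h1, h2⟩

end Pool.Agent.NH95.LF
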