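import Pool.Agent.NH95.LF.Low
import Pool.Agent.NH95.LF.Up

set_option autoImplicit false

/-!
The dimension in the product `ℝ × ℝ`.
-/

namespace Pool.Agent.NH95.LF

open MeasureTheory Filter Topology Set
open scoped ENNReal NNReal

/-- the set of the problem, in `ℝ × ℝ` -/
def EP (w : ℝ) : Set (ℝ × ℝ) := {x | ∃ c : ℝ, 0 < c ∧ {t : ℤ × ℤ × ℤ | 0 < t.1 ∧ 0 < t.2.1 ∧
    |(t.1 : ℝ) * x.1 + t.2.1 * x.2 + t.2.2| < c * ((max t.1 t.2.1 : ℤ) : ℝ) ^ (-w)}.Infinite}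

/-- the reflection -/
noncomputable def refl2 : (ℝ × ℝ) ≃L[ℝ] (ℝ × ℝ) :=
  (ContinuousLinearEquiv.refl ℝ ℝ).prodCongr (ContinuousLinearEquiv.neg ℝ)

/-- the swap -/
noncomputable def swap2 : (ℝ × ℝ) ≃L[ℝ] (ℝ × ℝ) := ContinuousLinearEquiv.prodComm ℝ ℝ ℝ

theorem WW_subset (w : ℝ) : WW w ⊆ EP w ∪ refl2 ⁻¹' EP w := by
  rintro ⟨x, y⟩ h
  unfold WW at h
  simp only [mem_ofPred_eq] at h
  by_cases h1 : {t : ℤ × ℤ × ℤ | 0 < t.1 ∧ 0 < t.2.1 ∧
    |(t.1 : ℝ) * x + t.2.1 * y + t.2.2| < 1 * ((max t.1 t.2.1 : ℤ) : ℝ) ^ (-w)}.Infinite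
  · exact Or.inl ⟨1, one_pos, h1⟩
  · right
    rw [not_infinite] at h1
    refine ⟨1, one_pos, ?_⟩
    show {t : ℤ × ℤ × ℤ | 0 < t.1 ∧ 0 < t.2.1 ∧
      |(t.1 : ℝ) * x + t.2.1 * (-y) + t.2.2| < 1 * ((max t.1 t.2.1 : ℤ) : ℝ) ^ (-w)}.Infinite
    intro h2
    apply h
    have h3 : ((fun t : ℤ × ℤ × ℤ => (-t.1, t.2.1, -t.2.2)) '' {t : ℤ × ℤ × ℤ | 0 < t.1 ∧ 0 < t.2.1 ∧
      |(t.1 : ℝ) * x + t.2.1 * (-y) + t.2.2| < 1 * ((max t.1 t.2.1 : ℤ) : ℝ) ^ (-w)}).Finite := h2.image _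
    refine (h1.union h3).subset ?_
    rintro ⟨p, q, r⟩ ⟨a1, a2, a3⟩
    simp only at a1 a2 a3
    rcases lt_or_gt_of_ne a1 with hp | hp
    · right
      refine ⟨(-p, q, -r), ⟨by show 0 < -p; omega, a2, ?_⟩, by simp⟩
      show |((-p : ℤ) : ℝ) * x + q * (-y) + ((-r : ℤ) : ℝ)| < 1 * ((max (-p) q : ℤ) : ℝ) ^ (-w)
      rw [← abs_neg, one_mul]
      have e : -(((-p : ℤ) : ℝ) * x + q * (-y) + ((-r : ℤ) : ℝ)) = p * x + q * y + r := by
        push_cast; ring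
      rw [e]
      rwa [abs_of_neg hp] at a3
    · left
      refine ⟨hp, a2, ?_⟩
      show |(p : ℝ) * x + q * y + r| < 1 * ((max p q : ℤ) : ℝ) ^ (-w)
      rw [one_mul]
      rwa [abs_of_pos hp] at a3

theorem le_dimH_EP {w : ℝ} (hw : 2 < w) : ENNReal.ofReal (1 + 3 / (w + 1)) ≤ dimH (EP w) := by
  have h1 := (le_dimH_WW hw).trans (dimH_mono (WW_subset w))
  rw [dimH_union, refl2.dimH_preimage, max_self] at h1
  exact h1

theorem EP_subset {w w' : ℝ} (hw' : 0 < w') (hww : w' < w) :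
    EP w ⊆ ⋃ M : ℕ, (EA w' M ∪ swap2 ⁻¹' EA w' M) := by
  rintro ⟨x, y⟩ ⟨c, hc, hinf⟩
  obtain ⟨M, hM⟩ := exists_nat_ge (max |x| |y|)
  have hMx : |x| ≤ M := (le_max_left _ _).trans hM
  have hMy : |y| ≤ M := (le_max_right _ _).trans hM
  rw [mem_iUnion]
  refine ⟨M, ?_⟩
  -- large approximations
  have hd : 0 < w - w' := by linarith
  obtain ⟨K, hK⟩ := ((tendsto_rpow_atTop hd).eventually_gt_atTop c).exists_forall_of_atTop
  obtain ⟨K', hK'⟩ := exists_nat_ge (max K 1)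
  have hKK : K ≤ K' := (le_max_left _ _).trans hK'
  have hK1 : (1 : ℝ) ≤ K' := (le_max_right _ _).trans hK'
  obtain ⟨R, hR⟩ := exists_nat_ge (c + 2 * M * K')
  have hbig : ∀ m : ℤ, (K' : ℤ) < m → c * (m : ℝ) ^ (-w) < (m : ℝ) ^ (-w') := by
    intro m hm
    have hm1 : (K' : ℝ) < m := by exact_mod_cast hm
    have hm0 : (0 : ℝ) < m := by linarith
    have h1 := hK m (by linarith)
    have e : (m : ℝ) ^ (-w') = (m : ℝ) ^ (w - w') * (m : ℝ) ^ (-w) := by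
      rw [← Real.rpow_add hm0]; congr 1; ring
    rw [e]
    exact mul_lt_mul_of_pos_right h1 (Real.rpow_pos_of_pos hm0 _)
  -- the small ones are finite in number
  have hsmall : {t : ℤ × ℤ × ℤ | (0 < t.1 ∧ 0 < t.2.1 ∧
      |(t.1 : ℝ) * x + t.2.1 * y + t.2.2| < c * ((max t.1 t.2.1 : ℤ) : ℝ) ^ (-w)) ∧
      max t.1 t.2.1 ≤ K'}.Finite := by
    refine ((Finset.Icc (1 : ℤ) K') ×ˢ ((Finset.Icc (1 : ℤ) K') ×ˢ
      (Finset.Icc (-(R : ℤ)) R))).finite_toSet.subset ?_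
    rintro ⟨p, q, r⟩ ⟨⟨a1, a2, a3⟩, a4⟩
    simp only at a1 a2 a3 a4
    rw [max_le_iff] at a4
    obtain ⟨a4, a5⟩ := a4
    rw [Finset.mem_coe, Finset.mem_product, Finset.mem_product, Finset.mem_Icc, Finset.mem_Icc,
      Finset.mem_Icc]
    refine ⟨⟨by show 1 ≤ p; omega, a4⟩, ⟨by show 1 ≤ q; omega, a5⟩, ?_⟩
    have hp : (0 : ℝ) < p := by exact_mod_cast a1
    have hq : (0 : ℝ) < q := by exact_mod_cast a2
    have hpK : (p : ℝ) ≤ K' := by exact_mod_cast a4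
    have hqK : (q : ℝ) ≤ K' := by exact_mod_cast a5
    have hmax : (1 : ℝ) ≤ ((max p q : ℤ) : ℝ) := by
      exact_mod_cast le_max_of_le_left (by omega : 1 ≤ p)
    have b1 : ((max p q : ℤ) : ℝ) ^ (-w) ≤ 1 := Real.rpow_le_one_of_one_le_of_nonpos hmax (by linarith)
    have b2 : |(p : ℝ) * x| ≤ K' * M := by
      rw [abs_mul, abs_of_pos hp]
      exact mul_le_mul hpK hMx (abs_nonneg _) (by linarith)
    have b3 : |(q : ℝ) * y| ≤ K' * M := by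
      rw [abs_mul, abs_of_pos hq]
      exact mul_le_mul hqK hMy (abs_nonneg _) (by linarith)
    have b4 : |(r : ℝ)| ≤ R := by
      rw [abs_le] at b2 b3 ⊢
      have b5 := abs_lt.1 a3
      have b6 : c * ((max p q : ℤ) : ℝ) ^ (-w) ≤ c := by nlinarith
      constructor <;> nlinarith
    have b7 : |r| ≤ (R : ℤ) := by exact_mod_cast b4
    exact abs_le.1 b7
  by_cases h1 : {t : ℤ × ℤ × ℤ | 0 < t.1 ∧ t.1 ≤ t.2.1 ∧
    |(t.1 : ℝ) * x + t.2.1 * y + t.2.2| < (t.2.1 : ℝ) ^ (-w')}.Infinite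
  · left
    exact ⟨hMx, hMy, h1⟩
  · right
    rw [not_infinite] at h1
    refine ⟨hMy, hMx, ?_⟩
    show {t : ℤ × ℤ × ℤ | 0 < t.1 ∧ t.1 ≤ t.2.1 ∧
      |(t.1 : ℝ) * y + t.2.1 * x + t.2.2| < (t.2.1 : ℝ) ^ (-w')}.Infinite
    intro h2
    have h3 : ((fun t : ℤ × ℤ × ℤ => (t.2.1, t.1, t.2.2)) '' {t : ℤ × ℤ × ℤ | 0 < t.1 ∧ t.1 ≤ t.2.1 ∧
      |(t.1 : ℝ) * y + t.2.1 * x + t.2.2| < (t.2.1 : ℝ) ^ (-w')}).Finite := h2.image _
    apply hinf
    refine ((hsmall.union h1).union h3).subset ?_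
    rintro ⟨p, q, r⟩ ⟨a1, a2, a3⟩
    simp only at a1 a2 a3
    by_cases h4 : max p q ≤ (K' : ℤ)
    · exact Or.inl (Or.inl ⟨⟨a1, a2, a3⟩, h4⟩)
    · push Not at h4
      have h5 := hbig _ h4
      rcases le_total p q with h6 | h6
      · left; right
        rw [max_eq_right h6] at h5 a3
        exact ⟨a1, h6, a3.trans h5⟩
      · right
        rw [max_eq_left h6] at h5 a3
        refine ⟨(q, p, r), ⟨a2, h6, ?_⟩, rfl⟩
        show |(q : ℝ) * y + p * x + r| < (p : ℝ) ^ (-w')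
        have e : (q : ℝ) * y + p * x + r = p * x + q * y + r := by ring
        rw [e]
        exact a3.trans h5

theorem dimH_EP_le {w : ℝ} (hw : 2 < w) : dimH (EP w) ≤ ENNReal.ofReal (1 + 3 / (w + 1)) := by
  have hw1 : 0 < w + 1 := by linarith
  have h30 : 0 < 3 / (w + 1) := by positivity
  refine le_of_forall_gt fun c hc => ?_
  obtain ⟨s, hs1, hs2, hs3⟩ := ENNReal.lt_iff_exists_real_btwn.1 hc
  have hs : 1 + 3 / (w + 1) < s := (ENNReal.ofReal_lt_ofReal_iff_of_nonneg (by linarith)).1 hs2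
  have hs0 : 0 < s - 1 := by linarith
  have h4 : 3 / (s - 1) - 1 < w := by
    have : 3 / (s - 1) < w + 1 := by
      rw [div_lt_iff₀ hs0]
      have : 3 / (w + 1) < s - 1 := by linarith
      rw [div_lt_iff₀ hw1] at this
      linarith
    linarith
  obtain ⟨w', h5, h6⟩ := exists_between (show max 0 (3 / (s - 1) - 1) < w from max_lt (by linarith) h4)
  have hw0 : 0 < w' := (le_max_left _ _).trans_lt h5
  have h7 : 1 + 3 / (w' + 1) < s := by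
    have h8 : 3 / (s - 1) - 1 < w' := (le_max_right _ _).trans_lt h5
    have h9 : 3 / (s - 1) < w' + 1 := by linarith
    rw [div_lt_iff₀ hs0] at h9
    have : 3 / (w' + 1) < s - 1 := by
      rw [div_lt_iff₀ (by linarith)]; linarith
    linarith
  refine lt_of_le_of_lt ?_ hs3
  refine (dimH_mono (EP_subset hw0 h6)).trans ?_
  rw [dimH_iUnion]
  refine iSup_le fun M => ?_
  rw [dimH_union, swap2.dimH_preimage, max_self]
  exact dimH_EA_le hw0 M h7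

theorem dimH_EP {w : ℝ} (hw : 2 < w) : dimH (EP w) = ENNReal.ofReal (1 + 3 / (w + 1)) :=
  le_antisymm (dimH_EP_le hw) (le_dimH_EP hw)

/-- the plane with the Euclidean metric -/
noncomputable def eu : EuclideanSpace ℝ (Fin 2) ≃L[ℝ] (ℝ × ℝ) :=
  (EuclideanSpace.equiv (Fin 2) ℝ).trans (ContinuousLinearEquiv.finTwoArrow ℝ ℝ)

theorem eu_apply (x : EuclideanSpace ℝ (Fin 2)) : eu x = (x 0, x 1) := rfl

end Pool.Agent.NH95.LF
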